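import Pool.Agent.H.MP_9d6213_co.Mot

namespace Pool.Agent.H.MP_9d6213_co

open scoped InnerProductSpace ComplexConjugate
open Complex

variable {k : ℕ}

def Sh {ι E : Type} [PseudoMetricSpace E] (p q : ι → E) (S : Finset ι) : Prop :=
  ∃ x : ι → unitInterval → E, (∀ i ∈ S, Continuous (x i) ∧ x i 0 = p i ∧ x i 1 = q i) ∧
    ∀ i ∈ S, ∀ j ∈ S, Antitone fun t => dist (x i t) (x j t)

abbrev Ix (h k : ℕ) := Fin (2 * h + 1) ⊕ (Fin k × Bool)

noncomputable def cir (h j : ℕ) : ℂ := Complex.exp ((j * (Real.pi / h) : ℝ) * I)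

noncomputable def pl (h k : ℕ) : Ix h k → ℂ := Sum.elim (fun j => cir h j) fun _ => 0

noncomputable def ht (h k : ℕ) (L : ℝ) : Ix h k → Fin k → ℝ :=
  Sum.elim (fun _ => 0) fun a => Pi.single a.1 (if a.2 then L else -L)

lemma pos_part (h : ℕ) (L : ℝ) (m : ℕ) (S : Finset (Ix h k)) (hS : S.card ≤ m) :
    Sh (fun i => mk (pl h k i) (ht h k L i))
      (fun i => mk ((mu (2 * (((m * m : ℕ) : ℝ) + 1) ^ 2) 1 : ℂ) * conj (pl h k i)) (ht h k L i)) S := by
  classical
  obtain ⟨α, hα⟩ := axis ((S ×ˢ S).image fun a => pl h k a.1 - pl h k a.2) (m * m)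
    (Finset.card_image_le.trans (by rw [Finset.card_product]; exact Nat.mul_le_mul hS hS))
  set K : ℝ := 2 * (((m * m : ℕ) : ℝ) + 1) ^ 2
  refine ⟨fun i t => mk (T K α t (pl h k i)) (ht h k L i), fun i _ => ⟨?_, ?_, ?_⟩, ?_⟩
  · exact (mk_cont _).comp ((T_cont K α _).comp continuous_subtype_val)
  · simp [T_zero]
  · simp [T_one]
  · intro i hi j hj s t hst
    refine abs_le_of_sq_le_sq' ?_ dist_nonneg |>.2
    rw [dist_mk, dist_mk, T_sub, T_sub]
    have := T_anti K α (pl h k i - pl h k j)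
      (hα _ (Finset.mem_image.2 ⟨(i, j), Finset.mem_product.2 ⟨hi, hj⟩, rfl⟩)) (s := s) (t := t) hst
    linarith

lemma polar (a b c d : Sp k) : 2 * ⟪a - b, c - d⟫_ℝ =
    dist a d ^ 2 + dist b c ^ 2 - dist a c ^ 2 - dist b d ^ 2 := by
  simp only [dist_eq_norm, norm_sub_sq_real, inner_sub_left, inner_sub_right]
  ring

lemma sum_single (i j : Fin k) (u w : ℝ) :
    ∑ l, ((Pi.single i u : Fin k → ℝ) l - (Pi.single j w : Fin k → ℝ) l) ^ 2 =
      u ^ 2 + w ^ 2 - if i = j then 2 * u * w else 0 := by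
  simp only [sub_sq, Finset.sum_add_distrib, Finset.sum_sub_distrib, Pi.single_apply]
  by_cases h : i = j
  · subst h; simp; ring
  · simp [h, Ne.symm h]

lemma cir_add (h : ℕ) (hh : 0 < h) (j : ℕ) : cir h (j + h) = -cir h j := by
  have : (h : ℝ) ≠ 0 := by positivity
  have e : (((j + h : ℕ) * (Real.pi / h) : ℝ) : ℂ) * I =
      ((j * (Real.pi / h) : ℝ) : ℂ) * I + Real.pi * I := by
    rw [← add_mul, ← Complex.ofReal_add]
    congr 2
    push_cast
    field_simp
  rw [cir, e, Complex.exp_add, Complex.exp_pi_mul_I, cir]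
  ring

lemma cir_succ (h j : ℕ) : cir h (j + 1) = cir h j * Complex.exp (I * (Real.pi / h : ℝ)) := by
  rw [cir, cir, ← Complex.exp_add]
  congr 1
  push_cast
  ring

lemma cir_norm (h j : ℕ) : ‖cir h j‖ = 1 := Complex.norm_exp_ofReal_mul_I _

lemma cir_step (h j : ℕ) : ‖cir h (j + 1) - cir h j‖ ≤ Real.pi / h := by
  have : cir h (j + 1) - cir h j = cir h j * (Complex.exp (I * (Real.pi / h : ℝ)) - 1) := by
    rw [cir_succ]; ring
  rw [this, norm_mul, cir_norm, one_mul]
  refine Real.norm_exp_I_mul_ofReal_sub_one_le.trans ?_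
  rw [Real.norm_eq_abs, abs_of_nonneg (by positivity)]

lemma cir_im (h : ℕ) (hh : 1 < h) (j : ℕ) : 0 < (conj (cir h j) * cir h (j + 1)).im := by
  rw [cir_succ, ← mul_assoc, Complex.conj_mul', cir_norm, mul_comm I]
  have h1 : (1 : ℝ) < h := by exact_mod_cast hh
  have : 0 < Real.sin (Real.pi / h) :=
    Real.sin_pos_of_pos_of_lt_pi (by positivity) (div_lt_self Real.pi_pos h1)
  simpa [-Complex.ofReal_div, Complex.exp_ofReal_mul_I_im] using this

lemma neg_part (h : ℕ) (L l : ℝ) (l0 : 0 < l) (l1 : l ≤ 1) (hh : 8 ≤ h * l)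
    (hL : L * l = k + 1) :
    ¬ Sh (fun i => mk (pl h k i) (ht h k L i))
      (fun i => mk ((l : ℂ) * conj (pl h k i)) (ht h k L i)) Finset.univ := by
  rintro ⟨x, hx, hm⟩
  simp only [Finset.mem_univ, true_imp_iff] at hx hm
  have h8 : (8 : ℝ) ≤ h := by nlinarith [Nat.cast_nonneg (α := ℝ) h]
  have h1 : 1 < h := by
    have : (1 : ℝ) < h := by linarith
    exact_mod_cast this
  have L0 : 0 < L := by
    by_contra hc
    have : L * l ≤ 0 := mul_nonpos_of_nonpos_of_nonneg (not_lt.1 hc) l0.le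
    have : (0 : ℝ) ≤ k := Nat.cast_nonneg k
    linarith
  have up : ∀ i j t, dist (x i t) (x j t) ^ 2 ≤
      ‖pl h k i - pl h k j‖ ^ 2 + ∑ a, (ht h k L i a - ht h k L j a) ^ 2 := by
    intro i j t
    have := hm i j (unitInterval.nonneg' (t := t))
    simp only [(hx i).2.1, (hx j).2.1] at this
    rw [← dist_mk]
    exact pow_le_pow_left₀ dist_nonneg this 2
  have lo : ∀ i j t, l ^ 2 * ‖pl h k i - pl h k j‖ ^ 2 + ∑ a, (ht h k L i a - ht h k L j a) ^ 2 ≤
      dist (x i t) (x j t) ^ 2 := by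
    intro i j t
    have := hm i j (unitInterval.le_one' (t := t))
    simp only [(hx i).2.2, (hx j).2.2] at this
    have h2 := pow_le_pow_left₀ dist_nonneg this 2
    rw [dist_mk, ← mul_sub, ← map_sub, norm_mul, Complex.norm_conj, mul_pow, Complex.norm_real,
      Real.norm_eq_abs, sq_abs] at h2
    exact h2
  let ix : ℕ → Ix h k := fun j => Sum.inl ⟨min j (2 * h), by omega⟩
  have pix : ∀ j ≤ 2 * h, pl h k (ix j) = cir h j := by
    intro j hj
    simp [pl, ix, min_eq_left hj]
  have hix : ∀ j, ht h k L (ix j) = 0 := fun j => rfl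
  have sc : ∀ i j b c t, dist (x (Sum.inr (i, b)) t) (x (Sum.inr (j, c)) t) ^ 2 =
      2 * L ^ 2 - if i = j then 2 * (if b then L else -L) * (if c then L else -L) else 0 := by
    intro i j b c t
    have a1 := up (Sum.inr (i, b)) (Sum.inr (j, c)) t
    have a2 := lo (Sum.inr (i, b)) (Sum.inr (j, c)) t
    simp only [pl, ht, Sum.elim_inr, sub_self, norm_zero, sum_single] at a1 a2
    have e1 : (if b then L else -L) ^ 2 = L ^ 2 := by cases b <;> simp
    have e2 : (if c then L else -L) ^ 2 = L ^ 2 := by cases c <;> simp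
    rw [e1, e2] at a1 a2
    linarith
  have mx : ∀ j ≤ 2 * h, ∀ i b t, L ^ 2 ≤ dist (x (ix j) t) (x (Sum.inr (i, b)) t) ^ 2 ∧
      dist (x (ix j) t) (x (Sum.inr (i, b)) t) ^ 2 ≤ 1 + L ^ 2 := by
    intro j hj i b t
    have a1 := up (ix j) (Sum.inr (i, b)) t
    have a2 := lo (ix j) (Sum.inr (i, b)) t
    have e : ∑ a, (ht h k L (ix j) a - ht h k L (Sum.inr (i, b)) a) ^ 2 = L ^ 2 := by
      rw [hix]
      cases b <;> simp [ht, Pi.single_apply]
    rw [pix j hj, e] at a1 a2
    simp only [pl, Sum.elim_inr, sub_zero, cir_norm] at a1 a2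
    constructor <;> nlinarith [sq_nonneg l]
  have st : ∀ j < 2 * h, ∀ t, ‖x (ix (j + 1)) t - x (ix j) t‖ ≤ l / 2 := by
    intro j hj t
    have a1 := up (ix (j + 1)) (ix j) t
    rw [pix j hj.le, pix (j + 1) hj, hix, hix, dist_eq_norm] at a1
    simp only [sub_self, ne_eq, OfNat.ofNat_ne_zero, not_false_eq_true, zero_pow,
      Finset.sum_const_zero, add_zero] at a1
    have a2 := (abs_le_of_sq_le_sq' a1 (norm_nonneg _)).2.trans (cir_step h j)
    refine a2.trans ?_
    rw [div_le_iff₀ (by linarith)]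
    nlinarith [Real.pi_le_four]
  refine obstruction h (by omega)
    (fun i t => (2 * L)⁻¹ • (x (Sum.inr (i, true)) t - x (Sum.inr (i, false)) t))
    (fun j t => x (ix (j + h)) t - x (ix j) t) ?_ ?_ ?_ ?_ ?_ ?_ ?_
  · intro i
    exact ((hx _).1.sub (hx _).1).const_smul ((2 * L)⁻¹ : ℝ)
  · intro j _
    exact (hx _).1.sub (hx _).1
  · intro t
    rw [orthonormal_iff_ite]
    intro i j
    have := polar (x (Sum.inr (i, true)) t) (x (Sum.inr (i, false)) t)
      (x (Sum.inr (j, true)) t) (x (Sum.inr (j, false)) t)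
    simp only [sc] at this
    rw [real_inner_smul_left, real_inner_smul_right]
    by_cases hij : i = j
    · simp only [hij, if_true, Bool.false_eq_true, if_false] at this ⊢
      field_simp
      linarith
    · simp only [hij, if_false] at this ⊢
      have h0 : ⟪x (Sum.inr (i, true)) t - x (Sum.inr (i, false)) t,
        x (Sum.inr (j, true)) t - x (Sum.inr (j, false)) t⟫_ℝ = 0 := by linarith
      rw [h0]; simp
  · intro t
    have a1 := up (ix (h + h)) (ix 0) t
    rw [pix _ (by omega), pix 0 (by omega), hix, hix, cir_add h (by omega)] at a1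
    have e : cir h h = -cir h 0 := by simpa using cir_add h (by omega) 0
    rw [e] at a1
    have a2 : dist (x (ix (h + h)) t) (x (ix 0) t) ^ 2 ≤ 0 := by simpa using a1
    have a3 : x (ix (h + h)) t = x (ix 0) t := by
      rw [← dist_eq_zero]
      exact pow_eq_zero_iff (n := 2) (by norm_num) |>.1 (le_antisymm a2 (sq_nonneg _))
    simp only [a3, zero_add, neg_sub]
  · intro t j hj
    have b1 : ‖(x (ix (j + 1 + h)) t - x (ix (j + 1)) t) - (x (ix (j + h)) t - x (ix j) t)‖ ≤ l := by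
      have s1 := st (j + h) (by omega) t
      have s2 := st j (by omega) t
      rw [show j + h + 1 = j + 1 + h by ring] at s1
      calc _ = ‖(x (ix (j + 1 + h)) t - x (ix (j + h)) t) - (x (ix (j + 1)) t - x (ix j) t)‖ := by
            congr 1; abel
        _ ≤ _ := norm_sub_le _ _
        _ ≤ l := by linarith
    have b2 : 4 * l ^ 2 ≤ ‖x (ix (j + h)) t - x (ix j) t‖ ^ 2 := by
      have a2 := lo (ix (j + h)) (ix j) t
      rw [pix _ (by omega), pix j (by omega), hix, hix, cir_add h (by omega), dist_eq_norm,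
        show -cir h j - cir h j = -2 * cir h j by ring, norm_mul, cir_norm] at a2
      simp at a2
      linarith
    have b3 : ∀ i, ⟪x (ix (j + h)) t - x (ix j) t,
        (2 * L)⁻¹ • (x (Sum.inr (i, true)) t - x (Sum.inr (i, false)) t)⟫_ℝ ^ 2 ≤ (L⁻¹) ^ 2 := by
      intro i
      have := polar (x (ix (j + h)) t) (x (ix j) t) (x (Sum.inr (i, true)) t)
        (x (Sum.inr (i, false)) t)
      have m1 := mx (j + h) (by omega) i true t
      have m2 := mx (j + h) (by omega) i false t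
      have m3 := mx j (by omega) i true t
      have m4 := mx j (by omega) i false t
      rw [real_inner_smul_right, mul_pow]
      set y := ⟪x (ix (j + h)) t - x (ix j) t,
        x (Sum.inr (i, true)) t - x (Sum.inr (i, false)) t⟫_ℝ
      have y1 : y ^ 2 ≤ 1 := by
        have : |y| ≤ 1 := abs_le.2 ⟨by linarith [m1.2, m2.1, m3.1, m4.2],
          by linarith [m1.1, m2.2, m3.2, m4.1]⟩
        nlinarith [abs_nonneg y, sq_abs y]
      calc _ ≤ (2 * L)⁻¹ ^ 2 * 1 := by gcongr
        _ ≤ _ := by rw [mul_one]; gcongr; linarith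
    have b4 := Finset.sum_le_sum fun i (_ : i ∈ Finset.univ) => b3 i
    simp only [Finset.sum_const, Finset.card_univ, Fintype.card_fin, nsmul_eq_mul] at b4
    have b5 : (k : ℝ) * L⁻¹ ^ 2 ≤ l ^ 2 := by
      have k0 : (0 : ℝ) ≤ k := Nat.cast_nonneg k
      rw [inv_pow, ← div_eq_mul_inv, div_le_iff₀ (by positivity), ← mul_pow, mul_comm l, hL]
      nlinarith
    have b6 := pow_le_pow_left₀ (norm_nonneg _) b1 2
    have : 0 < l ^ 2 := by positivity
    linarith
  · intro j hj
    have e : (fun i : Fin k => (2 * L)⁻¹ • (x (Sum.inr (i, true)) 0 - x (Sum.inr (i, false)) 0)) =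
        fun i : Fin k => mk 0 (Pi.single i 1) := by
      funext i
      rw [(hx _).2.1, (hx _).2.1, mk_sub]
      ext a
      rcases a with a | a
      · fin_cases a <;> simp [mk, pl]
      · simp only [mk, ht, Pi.single_apply]
        by_cases ha : a = i <;> simp [ha]
        field_simp
        norm_num
    rw [e]
    simp only [(hx _).2.1, mk_sub, hix, sub_self, ss_mk]
    rw [pix _ (by omega), pix _ (by omega), pix _ (by omega), pix _ (by omega),
      cir_add h (by omega), cir_add h (by omega)]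
    have := cir_im h h1 j
    simp at this ⊢
    linarith
  · intro j hj
    have e : (fun i : Fin k => (2 * L)⁻¹ • (x (Sum.inr (i, true)) 1 - x (Sum.inr (i, false)) 1)) =
        fun i : Fin k => mk 0 (Pi.single i 1) := by
      funext i
      rw [(hx _).2.2, (hx _).2.2, mk_sub]
      ext a
      rcases a with a | a
      · fin_cases a <;> simp [mk, pl]
      · simp only [mk, ht, Pi.single_apply]
        by_cases ha : a = i <;> simp [ha]
        field_simp
        norm_num
    rw [e]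
    simp only [(hx _).2.2, mk_sub, hix, sub_self, ss_mk]
    rw [pix _ (by omega), pix _ (by omega), pix _ (by omega), pix _ (by omega),
      cir_add h (by omega), cir_add h (by omega)]
    have := mul_pos (mul_pos l0 l0) (cir_im h h1 j)
    simp at this ⊢
    linarith

lemma transport {ι κ E F : Type} [PseudoMetricSpace E] [PseudoMetricSpace F] (σ : κ ≃ ι)
    (f : E ≃ᵢ F) (p q : ι → E) (S : Finset κ) (h : Sh p q (S.map σ.toEmbedding)) :
    Sh (fun i => f (p (σ i))) (fun i => f (q (σ i))) S := by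
  obtain ⟨x, hx, hm⟩ := h
  have mem : ∀ i ∈ S, σ i ∈ S.map σ.toEmbedding := fun i hi => Finset.mem_map_of_mem _ hi
  refine ⟨fun i t => f (x (σ i) t), fun i hi => ⟨f.continuous.comp (hx _ (mem i hi)).1, ?_, ?_⟩,
    fun i hi j hj => ?_⟩
  · simp only [(hx _ (mem i hi)).2.1]
  · simp only [(hx _ (mem i hi)).2.2]
  · simp only [f.dist_eq]
    exact hm _ (mem i hi) _ (mem j hj)

theorem main (d : ℕ) (hd : 2 ≤ d) (m : ℕ) : ∃ (n : ℕ) (p q : Fin n → EuclideanSpace ℝ (Fin d)),
    (∀ S : Finset (Fin n), S.card ≤ m → Sh p q S) ∧ ¬ Sh p q Finset.univ := by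
  obtain ⟨k, rfl⟩ := Nat.exists_eq_add_of_le hd
  set l := mu (2 * (((m * m : ℕ) : ℝ) + 1) ^ 2) 1 with hl
  have l0 : 0 < l := inv_pos.2 (Real.sqrt_pos.2 (by positivity))
  have l1 : l ≤ 1 := inv_le_one_of_one_le₀ (Real.one_le_sqrt.2 (by
    have : 0 ≤ (2 * (((m * m : ℕ) : ℝ) + 1) ^ 2) ^ 2 * (max 0 (2 * 1 - 1 : ℝ)) ^ 2 := by positivity
    linarith))
  obtain ⟨h, hh⟩ := exists_nat_ge (8 / l)
  rw [div_le_iff₀ l0] at hh
  let σ := (Fintype.equivFin (Ix h k)).symm
  let f : Sp k ≃ᵢ EuclideanSpace ℝ (Fin (2 + k)) :=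
    (LinearIsometryEquiv.piLpCongrLeft 2 ℝ ℝ finSumFinEquiv).toIsometryEquiv
  refine ⟨_, fun i => f (mk (pl h k (σ i)) (ht h k ((k + 1) / l) (σ i))),
    fun i => f (mk ((l : ℂ) * conj (pl h k (σ i))) (ht h k ((k + 1) / l) (σ i))),
    fun S hS => transport σ f _ _ S (pos_part h _ m _ (by simpa using hS)), fun hc => ?_⟩
  refine neg_part (k := k) h ((k + 1) / l) l l0 l1 hh (by field_simp) ?_
  have := transport σ.symm f.symm _ _ Finset.univ (by simpa using hc)
  simpa using this

end Pool.Agent.H.MP_9d6213_co
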