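import Pool.Agent.H.MP_9d6213_co.Obs

namespace Pool.Agent.H.MP_9d6213_co

open scoped InnerProductSpace ComplexConjugate
open Complex

variable {k : ℕ}

lemma axis (D : Finset ℂ) (M : ℕ) (hD : D.card ≤ M) :
    ∃ α : ℝ, ∀ z ∈ D, |(z * Complex.exp (-(α * I))).im| ≤
      (2 * ((M : ℝ) + 1) ^ 2) * |(z * Complex.exp (-(α * I))).re| := by
  classical
  set K : ℝ := 2 * ((M : ℝ) + 1) ^ 2 with hK
  have hM0 : (0 : ℝ) ≤ M := Nat.cast_nonneg M
  have h1 : ∃ c : ℕ, c ≤ M ∧ ∀ z ∈ D, |z.im - c * z.re| ≤ K * |z.re + c * z.im| := by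
    by_contra hcon
    push Not at hcon
    choose! f hf hf' using hcon
    have : (Finset.range (M + 1)).card ≤ D.card := by
      apply Finset.card_le_card_of_injOn f
      · intro c hc
        exact hf c (by simpa [Nat.lt_succ_iff] using hc)
      · intro c hc c' hc' he
        by_contra hne
        have hc1 : c ≤ M := by simpa [Nat.lt_succ_iff] using hc
        have hc2 : c' ≤ M := by simpa [Nat.lt_succ_iff] using hc'
        have a1 := hf' c hc1
        have a2 := hf' c' hc2
        rw [← he] at a2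
        set x := (f c).re
        set y := (f c).im
        have hc1' : (c : ℝ) ≤ M := by exact_mod_cast hc1
        have hc2' : (c' : ℝ) ≤ M := by exact_mod_cast hc2
        have c0 : (0 : ℝ) ≤ c := Nat.cast_nonneg c
        have c0' : (0 : ℝ) ≤ c' := Nat.cast_nonneg c'
        set N := max |x| |y| with hN
        have n1 : |x| ≤ N := le_max_left _ _
        have n2 : |y| ≤ N := le_max_right _ _
        have n0 : 0 ≤ N := (abs_nonneg _).trans n1
        have b : ∀ d : ℝ, 0 ≤ d → d ≤ M → |y - d * x| ≤ (M + 1) * N := by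
          intro d d0 d1
          calc |y - d * x| ≤ |y| + |d * x| := abs_sub _ _
            _ = |y| + d * |x| := by rw [abs_mul, abs_of_nonneg d0]
            _ ≤ N + M * N := by gcongr
            _ = _ := by ring
        have b1 := a1.trans_le (b c c0 hc1')
        have b2 := a2.trans_le (b c' c0' hc2')
        have d1 : (1 : ℝ) ≤ |(c : ℝ) - c'| := by
          have : (1 : ℤ) ≤ |(c : ℤ) - c'| := Int.one_le_abs (by omega)
          exact_mod_cast this
        have e1 : |y| ≤ |x + c * y| + |x + c' * y| := by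
          calc |y| ≤ |(c : ℝ) - c'| * |y| := le_mul_of_one_le_left (abs_nonneg _) d1
            _ = |(x + c * y) - (x + c' * y)| := by rw [← abs_mul]; congr 1; ring
            _ ≤ _ := abs_sub _ _
        have e2 : |x| ≤ |x + c * y| + M * |y| := by
          calc |x| = |(x + c * y) - c * y| := by congr 1; ring
            _ ≤ |x + c * y| + |c * y| := abs_sub _ _
            _ = |x + c * y| + c * |y| := by rw [abs_mul, abs_of_nonneg c0]
            _ ≤ _ := by gcongr
        have K0 : 0 < K := by positivity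
        have f1 : K * |y| < 2 * ((M + 1) * N) := by nlinarith
        have f2 : K * |x| < (M + 1) * N + M * (2 * ((M + 1) * N)) := by
          have : K * |x| ≤ K * |x + c * y| + M * (K * |y|) := by nlinarith
          have h2 : M * (K * |y|) ≤ M * (2 * ((M + 1) * N)) :=
            mul_le_mul_of_nonneg_left f1.le hM0
          linarith
        have g1 : 2 * ((M + 1) * N) ≤ K * N := by rw [hK]; nlinarith [mul_nonneg hM0 n0, mul_nonneg hM0 (mul_nonneg hM0 n0)]
        have g2 : (M + 1) * N + M * (2 * ((M + 1) * N)) ≤ K * N := by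
          rw [hK]; nlinarith [mul_nonneg hM0 n0, mul_nonneg hM0 (mul_nonneg hM0 n0)]
        rcases max_cases |x| |y| with ⟨h, -⟩ | ⟨h, -⟩
        · rw [← hN] at h; rw [← h] at f2; linarith
        · rw [← hN] at h; rw [← h] at f1; linarith
    simp at this
    omega
  obtain ⟨c, -, hc⟩ := h1
  refine ⟨Real.arctan c, fun z hz => ?_⟩
  have hcos : 0 < Real.cos (Real.arctan c) := Real.cos_arctan_pos _
  have hsin : Real.sin (Real.arctan c) = c * Real.cos (Real.arctan c) := by
    have := Real.tan_arctan (c : ℝ)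
    rw [Real.tan_eq_sin_div_cos] at this
    field_simp at this
    linarith
  have e : Complex.exp (-((Real.arctan c : ℝ) * I)) =
      ⟨Real.cos (Real.arctan c), -Real.sin (Real.arctan c)⟩ := by
    generalize Real.arctan c = θ
    rw [← neg_mul, ← Complex.ofReal_neg, Complex.exp_mul_I]
    apply Complex.ext <;> simp [Complex.cos_ofReal_re, Complex.sin_ofReal_re]
  rw [e]
  have i1 : (z * (⟨Real.cos (Real.arctan c), -Real.sin (Real.arctan c)⟩ : ℂ)).im =
      Real.cos (Real.arctan c) * (z.im - c * z.re) := by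
    simp only [Complex.mul_im]; rw [hsin]; ring
  have i2 : (z * (⟨Real.cos (Real.arctan c), -Real.sin (Real.arctan c)⟩ : ℂ)).re =
      Real.cos (Real.arctan c) * (z.re + c * z.im) := by
    simp only [Complex.mul_re]; rw [hsin]; ring
  rw [i1, i2, abs_mul, abs_mul, abs_of_pos hcos]
  have := mul_le_mul_of_nonneg_left (hc z hz) hcos.le
  linarith

noncomputable def mu (K t : ℝ) : ℝ := (√(1 + K ^ 2 * (max 0 (2 * t - 1)) ^ 2))⁻¹

noncomputable def T (K α t : ℝ) (z : ℂ) : ℂ :=
  (mu K t : ℂ) * Complex.exp (((1 - 2 * t) * α : ℝ) * I) *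
    (((z * Complex.exp (-(α * I))).re : ℂ) +
      (((1 - 2 * t) * (z * Complex.exp (-(α * I))).im : ℝ) : ℂ) * I)

lemma T_sub (K α t : ℝ) (z w : ℂ) : T K α t z - T K α t w = T K α t (z - w) := by
  simp only [T, sub_mul, Complex.sub_re, Complex.sub_im]
  push_cast
  ring

lemma T_zero (K α : ℝ) (z : ℂ) : T K α 0 z = z := by
  have h : mu K 0 = 1 := by simp [mu]
  simp only [T, h, mul_zero, sub_zero, one_mul, Complex.re_add_im, Complex.ofReal_one]
  rw [mul_left_comm, ← Complex.exp_add]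
  simp

lemma T_one (K α : ℝ) (z : ℂ) : T K α 1 z = (mu K 1 : ℂ) * conj z := by
  have h : ∀ w : ℂ, (w.re : ℂ) + (((1 - 2 * 1) * w.im : ℝ) : ℂ) * I = conj w := by
    intro w
    apply Complex.ext <;> simp
    ring
  simp only [T, h, map_mul, ← Complex.exp_conj, map_neg, Complex.conj_ofReal, Complex.conj_I]
  rw [mul_assoc, mul_left_comm (Complex.exp _), ← Complex.exp_add]
  have : (((1 - 2 * 1) * α : ℝ) : ℂ) * I + -(α * -I) = 0 := by push_cast; ring
  rw [this]
  simp

lemma T_cont (K α : ℝ) (z : ℂ) : Continuous fun t => T K α t z := by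
  have : Continuous (mu K) := by
    unfold mu
    refine Continuous.inv₀ (by fun_prop) fun t => ?_
    exact (Real.sqrt_pos.2 (by positivity)).ne'
  unfold T
  fun_prop

lemma T_norm (K α t : ℝ) (z : ℂ) : ‖T K α t z‖ ^ 2 =
    ((z * Complex.exp (-(α * I))).re ^ 2 + (1 - 2 * t) ^ 2 * (z * Complex.exp (-(α * I))).im ^ 2) /
      (1 + K ^ 2 * (max 0 (2 * t - 1)) ^ 2) := by
  have hp : 0 < 1 + K ^ 2 * (max 0 (2 * t - 1)) ^ 2 := by positivity
  rw [T, norm_mul, norm_mul, Complex.norm_exp_ofReal_mul_I, mul_one, mul_pow, Complex.sq_norm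
    (_ + _), Complex.normSq_add_mul_I, Complex.norm_real, Real.norm_eq_abs, sq_abs, mu, inv_pow,
    Real.sq_sqrt hp.le]
  field_simp

lemma T_anti (K α : ℝ) (z : ℂ) (h : |(z * Complex.exp (-(α * I))).im| ≤
    K * |(z * Complex.exp (-(α * I))).re|) {s t : ℝ} (hst : s ≤ t) :
    ‖T K α t z‖ ^ 2 ≤ ‖T K α s z‖ ^ 2 := by
  rw [T_norm, T_norm]
  set a := (z * Complex.exp (-(α * I))).re
  set b := (z * Complex.exp (-(α * I))).im
  have h2 : b ^ 2 ≤ K ^ 2 * a ^ 2 := by
    have := pow_le_pow_left₀ (abs_nonneg _) h 2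
    rwa [mul_pow, sq_abs, sq_abs] at this
  rw [div_le_div_iff₀ (by positivity) (by positivity)]
  rcases le_total (2 * t - 1) 0 with h3 | h3
  · rw [max_eq_left h3, max_eq_left (by linarith)]
    have : (1 - 2 * t) ^ 2 ≤ (1 - 2 * s) ^ 2 := by nlinarith
    nlinarith [sq_nonneg b]
  · rw [max_eq_right h3]
    rcases le_total (2 * s - 1) 0 with h4 | h4
    · rw [max_eq_left h4]
      have e1 : 0 ≤ (2 * t - 1) ^ 2 := sq_nonneg _
      have e2 : 0 ≤ (1 - 2 * s) ^ 2 * b ^ 2 * (1 + K ^ 2 * (2 * t - 1) ^ 2) := by positivity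
      nlinarith [mul_le_mul_of_nonneg_left h2 e1]
    · rw [max_eq_right h4]
      have e1 : 0 ≤ (2 * t - 1) ^ 2 - (2 * s - 1) ^ 2 := by nlinarith
      nlinarith [mul_le_mul_of_nonneg_left h2 e1]

noncomputable def mk (z : ℂ) (g : Fin k → ℝ) : Sp k := WithLp.toLp 2 (Sum.elim ![z.re, z.im] g)

lemma mk_sub (z w : ℂ) (g g' : Fin k → ℝ) : mk z g - mk w g' = mk (z - w) (g - g') := by
  ext i
  rcases i with i | i
  · fin_cases i <;> simp [mk]
  · simp [mk]

lemma norm_mk (z : ℂ) (g : Fin k → ℝ) : ‖mk z g‖ ^ 2 = ‖z‖ ^ 2 + ∑ i, g i ^ 2 := by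
  rw [EuclideanSpace.norm_sq_eq, Fintype.sum_sum_type, Fin.sum_univ_two, Complex.sq_norm,
    Complex.normSq_apply]
  simp [mk, sq]

lemma dist_mk (z w : ℂ) (g g' : Fin k → ℝ) :
    dist (mk z g) (mk w g') ^ 2 = ‖z - w‖ ^ 2 + ∑ i, (g i - g' i) ^ 2 := by
  rw [dist_eq_norm, mk_sub, norm_mk]
  simp

lemma mk_cont (g : Fin k → ℝ) : Continuous fun z : ℂ => mk z g := by
  unfold mk
  refine (PiLp.continuous_toLp 2 _).comp (continuous_pi fun i => ?_)
  rcases i with i | i
  · fin_cases i
    · simpa using Complex.continuous_re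
    · simpa using Complex.continuous_im
  · simpa using continuous_const

lemma ss_mk (z w : ℂ) :
    ss (fun i : Fin k => mk 0 (Pi.single i 1)) (mk z 0) (mk w 0) = (conj z * w).im := by
  have : (Matrix.of fun i j : Fin 2 ⊕ Fin k =>
      (Sum.elim ![mk z 0, mk w 0] (fun i : Fin k => mk 0 (Pi.single i 1)) j) i) =
      Matrix.fromBlocks !![z.re, w.re; z.im, w.im] 0 0 1 := by
    ext i j
    rcases i with i | i <;> rcases j with j | j
    · fin_cases i <;> fin_cases j <;> simp [mk]
    · fin_cases i <;> simp [mk]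
    · fin_cases j <;> simp [mk]
    · simp [mk, Matrix.one_apply, Pi.single_apply]
  rw [ss, this, Matrix.det_fromBlocks_zero₁₂, Matrix.det_fin_two]
  simp
  ring

end Pool.Agent.H.MP_9d6213_co
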