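import Mathlib

namespace Pool.Agent.H.MP_9d6213_co

open scoped InnerProductSpace ComplexConjugate
open Complex

abbrev Sp (k : ℕ) := EuclideanSpace ℝ (Fin 2 ⊕ Fin k)

variable {k : ℕ}

noncomputable def cc (e : Fin k → Sp k) (v w : Sp k) : ℝ :=
  ⟪v, w⟫_ℝ - ∑ i, ⟪v, e i⟫_ℝ * ⟪w, e i⟫_ℝ

noncomputable def ss (e : Fin k → Sp k) (v w : Sp k) : ℝ :=
  Matrix.det (Matrix.of fun i j : Fin 2 ⊕ Fin k => (Sum.elim ![v, w] e j) i)

lemma frame (e : Fin k → Sp k) (he : Orthonormal ℝ e) :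
    ∃ z : Sp k →ₗ[ℝ] ℂ, ∀ v w, conj (z v) * z w = ⟨cc e v w, ss e v w⟩ := by
  classical
  have h1 : Orthonormal ℝ ((Set.range (Sum.inr : Fin k → Fin 2 ⊕ Fin k)).domRestrict
      (Sum.elim (fun _ => (0 : Sp k)) e)) := by
    rw [orthonormal_iff_ite]
    rintro ⟨_, i, rfl⟩ ⟨_, j, rfl⟩
    have := orthonormal_iff_ite.1 he i j
    simpa [Set.domRestrict] using this
  obtain ⟨b, hb⟩ := h1.exists_orthonormalBasis_extension_of_card_eq (by simp)
  have hb' : ∀ i, b (Sum.inr i) = e i := fun i => by simpa using hb (Sum.inr i) ⟨i, rfl⟩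
  let B : Matrix (Fin 2 ⊕ Fin k) (Fin 2 ⊕ Fin k) ℝ := Matrix.of fun i l => b l i
  have hB : B.transpose * B = 1 := by
    ext l l'
    have := orthonormal_iff_ite.1 b.orthonormal l l'
    rw [Matrix.mul_apply, Matrix.one_apply, ← this]
    simp [B, PiLp.inner_apply, mul_comm]
  have hdet : B.det * B.det = 1 := by
    have := congrArg Matrix.det hB
    rwa [Matrix.det_mul, Matrix.det_transpose, Matrix.det_one] at this
  have hs : ∀ v w : Sp k, ss e v w = B.det * (⟪b (Sum.inl 0), v⟫_ℝ * ⟪b (Sum.inl 1), w⟫_ℝ -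
      ⟪b (Sum.inl 0), w⟫_ℝ * ⟪b (Sum.inl 1), v⟫_ℝ) := by
    intro v w
    have hM : (Matrix.of fun i j : Fin 2 ⊕ Fin k => (Sum.elim ![v, w] e j) i) =
        B * Matrix.of fun l j => ⟪b l, Sum.elim ![v, w] e j⟫_ℝ := by
      ext i j
      have := congrArg (fun x : Sp k => x i) (b.sum_repr' (Sum.elim ![v, w] e j))
      simp only [Matrix.mul_apply, Matrix.of_apply, B]
      rw [← this]
      simp [mul_comm]
    have hN : (Matrix.of fun l j : Fin 2 ⊕ Fin k => ⟪b l, Sum.elim ![v, w] e j⟫_ℝ) =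
        Matrix.fromBlocks (Matrix.of fun l j : Fin 2 => ⟪b (Sum.inl l), ![v, w] j⟫_ℝ) 0
          (Matrix.of fun l j => ⟪b (Sum.inr l), ![v, w] j⟫_ℝ) 1 := by
      ext l j
      rcases l with l | l <;> rcases j with j | j
      · simp
      · have := orthonormal_iff_ite.1 b.orthonormal (Sum.inl l) (Sum.inr j)
        simpa [hb'] using this
      · simp
      · have := orthonormal_iff_ite.1 b.orthonormal (Sum.inr l) (Sum.inr j)
        simpa [hb', Matrix.one_apply] using this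
    rw [ss, hM, Matrix.det_mul, hN, Matrix.det_fromBlocks_zero₁₂, Matrix.det_fin_two]
    simp
  have hc : ∀ v w : Sp k, cc e v w = ⟪b (Sum.inl 0), v⟫_ℝ * ⟪b (Sum.inl 0), w⟫_ℝ +
      ⟪b (Sum.inl 1), v⟫_ℝ * ⟪b (Sum.inl 1), w⟫_ℝ := by
    intro v w
    rw [cc, ← b.sum_inner_mul_inner v w, Fintype.sum_sum_type, Fin.sum_univ_two]
    simp only [hb', real_inner_comm v, real_inner_comm w]
    ring
  refine ⟨{ toFun := fun v => ⟨⟪b (Sum.inl 0), v⟫_ℝ, B.det * ⟪b (Sum.inl 1), v⟫_ℝ⟩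
            map_add' := ?_, map_smul' := ?_ }, ?_⟩
  · intro v w
    apply Complex.ext <;> simp [inner_add_right, mul_add]
  · intro c v
    apply Complex.ext <;> simp [inner_smul_right]
    ring
  · intro v w
    rw [hs, hc]
    apply Complex.ext
    · simp
      linear_combination (⟪b (Sum.inl 1), v⟫_ℝ * ⟪b (Sum.inl 1), w⟫_ℝ) * hdet
    · simp
      ring

lemma frame_norm {e : Fin k → Sp k} {z : Sp k →ₗ[ℝ] ℂ}
    (hz : ∀ v w, conj (z v) * z w = ⟨cc e v w, ss e v w⟩) (v : Sp k) :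
    ‖z v‖ ^ 2 = ‖v‖ ^ 2 - ∑ i, ⟪v, e i⟫_ℝ ^ 2 := by
  have h := congrArg Complex.re (hz v v)
  rw [Complex.conj_mul'] at h
  have h2 : ((‖z v‖ : ℂ) ^ 2).re = ‖z v‖ ^ 2 := by
    rw [← Complex.ofReal_pow, Complex.ofReal_re]
  rw [h2] at h
  rw [h]
  simp only [cc, real_inner_self_eq_norm_sq, sq]

lemma re_pos {a b : ℂ} (h : ‖b - a‖ < ‖a‖) : 0 < (conj a * b).re := by
  have h1 : conj a * b = conj a * a + conj a * (b - a) := by ring
  have h2 : (conj a * a).re = ‖a‖ ^ 2 := by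
    rw [Complex.conj_mul', ← Complex.ofReal_pow, Complex.ofReal_re]
  have h3 : |(conj a * (b - a)).re| ≤ ‖a‖ * ‖b - a‖ := by
    refine (Complex.abs_re_le_norm _).trans ?_
    rw [norm_mul, Complex.norm_conj]
  have h4 := (abs_le.1 h3).1
  have h5 : 0 < ‖a‖ := lt_of_le_of_lt (norm_nonneg _) h
  rw [h1, Complex.add_re, h2]
  nlinarith

lemma exp_sum (ζ : ℕ → ℂ) (h : ℕ) (h0 : ∀ j ≤ h, ζ j ≠ 0) :
    Complex.exp ((∑ j ∈ Finset.range h, arg (conj (ζ j) * ζ (j + 1)) : ℝ) * I) * (ζ 0 / ‖ζ 0‖) =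
      ζ h / ‖ζ h‖ := by
  induction h with
  | zero => simp
  | succ h ih =>
    have ih := ih fun j hj => h0 j (by omega)
    have a0 : ζ h ≠ 0 := h0 h (by omega)
    have a1 : ζ (h + 1) ≠ 0 := h0 _ le_rfl
    have n0 : (‖ζ h‖ : ℂ) ≠ 0 := by simpa using a0
    have n1 : (‖ζ (h + 1)‖ : ℂ) ≠ 0 := by simpa using a1
    have e1 := Complex.norm_mul_exp_arg_mul_I (conj (ζ h) * ζ (h + 1))
    rw [norm_mul, Complex.norm_conj] at e1
    push_cast at e1
    have e2 := Complex.conj_mul' (ζ h)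
    rw [Finset.sum_range_succ, Complex.ofReal_add, add_mul, Complex.exp_add, mul_right_comm, ih]
    field_simp
    have : (‖ζ h‖ : ℂ) * (ζ h * Complex.exp (arg (conj (ζ h) * ζ (h + 1)) * I) * ‖ζ (h + 1)‖) =
        ‖ζ h‖ * (‖ζ h‖ * ζ (h + 1)) := by
      linear_combination ζ h * e1 + ζ (h + 1) * e2
    exact mul_left_cancel₀ n0 this

/-- the winding obstruction -/
lemma obstruction (h : ℕ) (hh : 0 < h) (e : Fin k → unitInterval → Sp k)
    (v : ℕ → unitInterval → Sp k)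
    (ce : ∀ i, Continuous (e i)) (cv : ∀ j ≤ h, Continuous (v j))
    (he : ∀ t, Orthonormal ℝ fun i => e i t) (hv : ∀ t, v h t = - v 0 t)
    (hl : ∀ t, ∀ j < h, ‖v (j + 1) t - v j t‖ ^ 2 + ∑ i, ⟪v j t, e i t⟫_ℝ ^ 2 < ‖v j t‖ ^ 2)
    (h0 : ∀ j < h, 0 < ss (fun i => e i 0) (v j 0) (v (j + 1) 0))
    (h1 : ∀ j < h, ss (fun i => e i 1) (v j 1) (v (j + 1) 1) < 0) : False := by
  let ζ : ℕ → unitInterval → ℂ := fun j t =>
    ⟨cc (fun i => e i t) (v j t) (v (j + 1) t), ss (fun i => e i t) (v j t) (v (j + 1) t)⟩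
  have key : ∀ t, (∀ j < h, 0 < (ζ j t).re) ∧
      Complex.exp ((∑ j ∈ Finset.range h, arg (ζ j t) : ℝ) * I) = -1 := by
    intro t
    obtain ⟨z, hz⟩ := frame _ (he t)
    have hlt : ∀ j < h, ‖z (v (j + 1) t) - z (v j t)‖ < ‖z (v j t)‖ := by
      intro j hj
      rw [← map_sub]
      have a1 := frame_norm hz (v (j + 1) t - v j t)
      have a2 := frame_norm hz (v j t)
      have a3 : 0 ≤ ∑ i, ⟪v (j + 1) t - v j t, e i t⟫_ℝ ^ 2 :=
        Finset.sum_nonneg fun i _ => sq_nonneg _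
      have a4 := hl t j hj
      apply lt_of_pow_lt_pow_left₀ 2 (norm_nonneg _)
      linarith
    have hne : ∀ j < h, z (v j t) ≠ 0 := fun j hj =>
      norm_pos_iff.1 (lt_of_le_of_lt (norm_nonneg _) (hlt j hj))
    have hne' : ∀ j ≤ h, z (v j t) ≠ 0 := by
      intro j hj
      rcases hj.lt_or_eq with hj | rfl
      · exact hne j hj
      · rw [hv, map_neg, neg_ne_zero]
        exact hne 0 hh
    refine ⟨fun j hj => ?_, ?_⟩
    · have := re_pos (hlt j hj)
      rwa [hz] at this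
    · have := exp_sum (fun j => z (v j t)) h hne'
      simp only [hz] at this
      rw [hv, map_neg, norm_neg] at this
      have n0 : z (v 0 t) / (‖z (v 0 t)‖ : ℂ) ≠ 0 :=
        div_ne_zero (hne 0 hh) (by simpa using hne 0 hh)
      apply mul_right_cancel₀ n0
      rw [this]
      ring
  have cζ : ∀ j < h, Continuous (ζ j) := by
    intro j hj
    have c1 := cv j hj.le
    have c2 := cv (j + 1) hj
    have : ζ j = fun t => ((cc (fun i => e i t) (v j t) (v (j + 1) t) : ℝ) : ℂ) +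
        ((ss (fun i => e i t) (v j t) (v (j + 1) t) : ℝ) : ℂ) * I := by
      funext t
      apply Complex.ext <;> simp [ζ]
    rw [this]
    refine (Complex.continuous_ofReal.comp ?_).add
      ((Complex.continuous_ofReal.comp ?_).mul continuous_const)
    · unfold cc
      fun_prop
    · unfold ss
      apply Continuous.matrix_det
      refine continuous_matrix fun i j => ?_
      rcases j with j | j
      · fin_cases j
        · simp only [Matrix.of_apply, Sum.elim_inl]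
          exact (EuclideanSpace.proj i).continuous.comp c1
        · simp only [Matrix.of_apply, Sum.elim_inl]
          exact (EuclideanSpace.proj i).continuous.comp c2
      · exact (EuclideanSpace.proj i).continuous.comp (ce j)
  let W : unitInterval → ℝ := fun t => ∑ j ∈ Finset.range h, arg (ζ j t)
  have cW : Continuous W := by
    refine continuous_finsetSum _ fun j hj => ?_
    rw [Finset.mem_range] at hj
    refine continuous_iff_continuousAt.2 fun t => ?_
    exact ContinuousAt.comp (f := ζ j) (Complex.continuousAt_arg (Or.inl ((key t).1 j hj)))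
      (cζ j hj).continuousAt
  have w0 : 0 ≤ W 0 := Finset.sum_nonneg fun j hj =>
    Complex.arg_nonneg_iff.2 (h0 j (Finset.mem_range.1 hj)).le
  have w1 : W 1 ≤ 0 := Finset.sum_nonpos fun j hj =>
    (Complex.arg_neg_iff.2 (h1 j (Finset.mem_range.1 hj))).le
  obtain ⟨t, ht⟩ := intermediate_value_univ 1 0 cW ⟨w1, w0⟩
  have := (key t).2
  have ht' : ∑ j ∈ Finset.range h, arg (ζ j t) = 0 := ht
  rw [ht'] at this
  norm_num at this

end Pool.Agent.H.MP_9d6213_co
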